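import Pool.Agent.KS6_11.LlcSph.Main

/-!
MP_0f1fb3_an, Q1: negative answer, in a strong form.  There is a metric space `X`, homeomorphic to
the 2-sphere and of finite Hausdorff 2-measure, which is doubling and 2-Loewner but not linearly
locally connected; it is not quasisymmetrically equivalent to any linearly locally connected space,
in particular it is not a quasisphere.
-/

set_option autoImplicit false

namespace Pool.Agent.Results.MP_0f1fb3_an.NotLinearlyConnected

open MeasureTheory Set Metric Pool.Agent.T6.H52.LS Pool.Agent.KS6_11.LlcSph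
open scoped ENNReal NNReal

/-- There is a metric 2-sphere of finite area which is doubling and 2-Loewner, which has two points
separated by rings that are arbitrarily thin in comparison with their distances to these points, and
which is therefore not linearly locally connected and not quasisymmetrically equivalent to any
linearly locally connected metric space, nor to the Riemann sphere. -/
theorem result : ∃ (X : Type) (_ : MetricSpace X) (_ : MeasurableSpace X) (_ : BorelSpace X),
    Nonempty (S2 ≃ₜ X) ∧ (μH[2] : Measure X) univ < ∞ ∧ Doubling X ∧ Loewner X ∧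
      (¬ ∃ F : S2 ≃ₜ X, QS F) ∧ ¬ LLC2 X ∧ (∃ p q : X, p ≠ q ∧ ThinRings p q) ∧
      ∀ (Z : Type) [MetricSpace Z], LLC2 Z → (¬ ∃ F : X ≃ₜ Z, QS F) ∧ (¬ ∃ F : Z ≃ₜ X, QS F) ∧
        ∀ (F : Z ≃ₜ X) (η : ℝ≥0 → ℝ≥0), ¬ ∀ (x a y : Z) (t : ℝ≥0), dist x a ≤ t * dist y a →
          dist (F x) (F a) ≤ η t * dist (F y) (F a) := by
  obtain ⟨X, i1, i2, i3, h1, h2, h3, h4, h5, p, q, hpq, h6⟩ := main
  refine ⟨X, i1, i2, i3, h1, h2, h3, h4, h5, not_llc2 h6, ⟨p, q, hpq, h6⟩, ?_⟩
  intro Z _ hZ
  refine ⟨?_, ?_, fun F η => not_qs h6 Z hZ F η⟩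
  · rintro ⟨F, hF⟩
    exact not_qs' h6 Z hZ F hF
  · rintro ⟨F, η, hη⟩
    exact not_qs h6 Z hZ F η hη

end Pool.Agent.Results.MP_0f1fb3_an.NotLinearlyConnected
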